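import Pool.Agent.Helper16.A9.Final

/-!
# Projective varieties with dense images of elliptic curves or algebraic groups
-/

set_option autoImplicit false

namespace Pool.Agent.Results.MP_a9b39e_nt.DenseGroupImages

open Pool.Agent.Helper3.A9 Pool.Agent.Helper16.A9 Filter

theorem result (K : Type) [Field K] [NumberField K] (n : ℕ)
    (X : Set (PP (AlgebraicClosure K) n)) (hX : IsClosedOver K X)
    (H : PP (AlgebraicClosure K) n → ℝ) (hH : Comparable X H) (hD : DenseGroupImages K X) :
    (∀ U, IsOpenIn K X U →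
      ∃ L₀ : IntermediateField K (AlgebraicClosure K), FiniteDimensional K L₀ ∧
        ∀ L : IntermediateField K (AlgebraicClosure K), L₀ ≤ L → FiniteDimensional K L →
          ∃ c c' : ℝ, 0 < c ∧ 0 < c' ∧ ∀ᶠ T : ℝ in atTop,
            c * Real.log T ^ c' ≤ count U H L T) ∧
    (∀ a : ℕ, HasOrder K X H a → a ≤ 1) ∧ ¬ HasOrderTop K X H :=
  ⟨fun _ hU => polylog_of_groupImages hH hD hU,
    orders_of_polylog (fun _ hU => polylog_of_groupImages hH hD hU)⟩

end Pool.Agent.Results.MP_a9b39e_nt.DenseGroupImages
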