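import Pool.Agent.Helper16.A9.Final

/-!
# Projective varieties with dense infinite orbits
-/

set_option autoImplicit false

namespace Pool.Agent.Results.MP_a9b39e_nt.DenseOrbits

open Pool.Agent.Helper3.A9 Pool.Agent.Helper16.A9 Filter

theorem result (K : Type) [Field K] [NumberField K] (n : ℕ)
    (X : Set (PP (AlgebraicClosure K) n)) (hX : IsClosedOver K X)
    (H : PP (AlgebraicClosure K) n → ℝ) (hH : Comparable X H) (hD : DenseInfiniteOrbits K X) :
    (∀ U, IsOpenIn K X U →
      ∃ L₀ : IntermediateField K (AlgebraicClosure K), FiniteDimensional K L₀ ∧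
        ∀ L : IntermediateField K (AlgebraicClosure K), L₀ ≤ L → FiniteDimensional K L →
          ∃ c : ℝ, 0 < c ∧ ∀ᶠ T : ℝ in atTop,
            c * Real.log (Real.log T) ≤ count U H L T) ∧
    (∀ a : ℕ, HasOrder K X H a → a ≤ 2) ∧ ¬ HasOrderTop K X H ∧
    (DenseExpOrbits K X →
      (∀ U, IsOpenIn K X U →
        ∃ L₀ : IntermediateField K (AlgebraicClosure K), FiniteDimensional K L₀ ∧
          ∀ L : IntermediateField K (AlgebraicClosure K), L₀ ≤ L → FiniteDimensional K L →
            ∃ c c' : ℝ, 0 < c ∧ 0 < c' ∧ ∀ᶠ T : ℝ in atTop,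
              c * Real.log T ^ c' ≤ count U H L T) ∧
      ∀ a : ℕ, HasOrder K X H a → a ≤ 1) :=
  ⟨fun _ hU => loglog_of_orbits hH hD hU,
    (orders_of_loglog (fun _ hU => loglog_of_orbits hH hD hU)).1,
    (orders_of_loglog (fun _ hU => loglog_of_orbits hH hD hU)).2,
    fun hE => ⟨fun _ hU => polylog_of_expOrbits hH hE hU,
      (orders_of_polylog (fun _ hU => polylog_of_expOrbits hH hE hU)).1⟩⟩

end Pool.Agent.Results.MP_a9b39e_nt.DenseOrbits
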