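import Pool.Agent.Helper16.A9.LowerE

/-!
# Projective varieties with a dense set of rational curves have arithmetic order zero
-/

set_option autoImplicit false

namespace Pool.Agent.Results.MP_a9b39e_nt.DenseRationalCurves

open Pool.Agent.Helper3.A9 Filter

theorem result (K : Type) [Field K] [NumberField K] (n : ℕ)
    (X : Set (PP (AlgebraicClosure K) n)) (hX : IsClosedOver K X) (hne : X.Nonempty)
    (H : PP (AlgebraicClosure K) n → ℝ) (hH : Comparable X H) (hD : DenseRational K X) :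
    (∀ U, IsOpenIn K X U →
      ∃ L₀ : IntermediateField K (AlgebraicClosure K), FiniteDimensional K L₀ ∧
        ∀ L : IntermediateField K (AlgebraicClosure K), L₀ ≤ L → FiniteDimensional K L →
          ∃ c c' C C' : ℝ, 0 < c ∧ 0 < c' ∧ 0 < C ∧ 0 < C' ∧
            ∀ᶠ T : ℝ in atTop, c * T ^ c' ≤ count U H L T ∧ count U H L T ≤ C * T ^ C') ∧
    HasOrder K X H 0 := by
  refine ⟨fun U hU => ?_, order_zero_of_dense (Pool.Agent.Helper16.A9.cardLe n) hne hH hD⟩
  obtain ⟨p, hp⟩ := hD U hU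
  obtain ⟨L₀, hL₀, h⟩ := lower_rational (Pool.Agent.Helper16.A9.cardLe n) hH hU p hp
  refine ⟨L₀, hL₀, fun L hLL hL => ?_⟩
  obtain ⟨c, c', hc, hc', hlo⟩ := h L hLL hL
  obtain ⟨hfin, C, C', hC, hC', hup⟩ := upper (Pool.Agent.Helper16.A9.cardLe n) hH L hL
  have hUX : U ⊆ X := by
    obtain ⟨-, Z, -, rfl⟩ := hU
    exact Set.sdiff_subset
  refine ⟨c, c', C, C', hc, hc', hC, hC', ?_⟩
  filter_upwards [hlo, hup] with T h1 h2
  refine ⟨h1, le_trans ?_ h2⟩
  unfold count
  exact_mod_cast Set.ncard_le_ncard (by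
    rintro P ⟨h1, h2, h3⟩
    exact ⟨hUX h1, h2, h3⟩) (hfin T)

end Pool.Agent.Results.MP_a9b39e_nt.DenseRationalCurves
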