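import Pool.Agent.Helper3.A9.One

/-!
# Varieties of arithmetic order one
-/

set_option autoImplicit false

namespace Pool.Agent.Results.MP_a9b39e_nt.OrderOne

open Pool.Agent.Helper3.A9 Pool.Agent.Helper16.A9 Filter

theorem result (K : Type) [Field K] [NumberField K] (n : ℕ)
    (X U₀ : Set (PP (AlgebraicClosure K) n)) (hU₀ : IsOpenIn K X U₀)
    (H : PP (AlgebraicClosure K) n → ℝ) (hH : Comparable X H) (hE : ToElliptic U₀)
    (hD : DenseGroupImages K X) :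
    (∀ U, IsOpenIn K X U → U ⊆ U₀ →
      ∃ L₀ : IntermediateField K (AlgebraicClosure K), FiniteDimensional K L₀ ∧
        ∀ L : IntermediateField K (AlgebraicClosure K), L₀ ≤ L → FiniteDimensional K L →
          ∃ c c' C C' : ℝ, 0 < c ∧ 0 < c' ∧ 0 < C ∧ 0 < C' ∧ ∀ᶠ T : ℝ in atTop,
            c * Real.log T ^ c' ≤ count U H L T ∧ count U H L T ≤ C * Real.log T ^ C') ∧
    HasOrder K X H 1 := by
  have hU₀X : U₀ ⊆ X := by
    obtain ⟨-, Z, -, rfl⟩ := hU₀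
    exact Set.sdiff_subset
  obtain ⟨L₁, hL₁, hup⟩ := upper_elliptic hH hU₀X hE
  have key : ∀ U, IsOpenIn K X U → U ⊆ U₀ →
      ∃ L₀ : IntermediateField K (AlgebraicClosure K), FiniteDimensional K L₀ ∧
        ∀ L : IntermediateField K (AlgebraicClosure K), L₀ ≤ L → FiniteDimensional K L →
          ∃ c c' C C' : ℝ, 0 < c ∧ 0 < c' ∧ 0 < C ∧ 0 < C' ∧ ∀ᶠ T : ℝ in atTop,
            c * Real.log T ^ c' ≤ count U H L T ∧ count U H L T ≤ C * Real.log T ^ C' := by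
    intro U hU hUU
    obtain ⟨L₂, hL₂, hlo⟩ := polylog_of_groupImages hH hD hU
    haveI := hL₁
    haveI := hL₂
    refine ⟨L₁ ⊔ L₂, IntermediateField.finiteDimensional_sup L₁ L₂, fun L hLL hL => ?_⟩
    obtain ⟨C, C', hC, hC', h1⟩ := hup L (le_sup_left.trans hLL) hL
    obtain ⟨c, c', hc, hc', h2⟩ := hlo L (le_sup_right.trans hLL) hL
    refine ⟨c, c', C, C', hc, hc', hC, hC', ?_⟩
    filter_upwards [h1, h2] with T h3 h4
    exact ⟨h4, h3 U hUU⟩
  refine ⟨key, 2, le_rfl, U₀, hU₀, fun U hU hUU => ?_⟩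
  obtain ⟨L₀, hL₀, h⟩ := key U hU hUU
  refine ⟨L₀, hL₀, fun L hLL hL => ?_⟩
  obtain ⟨c, c', C, C', hc, hc', hC, hC', h1⟩ := h L hLL hL
  exact order_one (N := fun T => (count U H L T : ℝ)) hc hc' hC hC'
    (h1.mono fun T hT => hT.1) (h1.mono fun T hT => hT.2)

end Pool.Agent.Results.MP_a9b39e_nt.OrderOne
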